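import Pool.Agent.L7h10.AB.Stm

set_option autoImplicit false

/-! Project AB, part DESD: Frobenius descent for the quartics with a double root. -/

namespace Pool.Agent.L7h29.AB

open Polynomial Pool.Agent.L7h10.AB

theorem s_DESD : S_DESD := by
  intro hINJ hFIX K _ _ p _ hp b c d
  classical
  have hp0 : p ≠ 0 := by omega
  have hpp : p.Prime := (CharP.char_is_prime_or_zero K p).resolve_right hp0
  haveI : Fact p.Prime := ⟨hpp⟩
  haveI : Fintype K := Fintype.ofFinite K
  have hinj : Function.Injective (algebraMap K (AlgebraicClosure K)) :=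
    (algebraMap K (AlgebraicClosure K)).injective
  haveI : CharP (AlgebraicClosure K) p := charP_of_injective_algebraMap hinj p
  have hne : ∀ m : ℕ, 0 < m → m < p → ((m : ℕ) : AlgebraicClosure K) ≠ 0 := by
    intro m hm hmp h
    rw [CharP.cast_eq_zero_iff (AlgebraicClosure K) p m] at h
    exact absurd (Nat.le_of_dvd hm h) (by omega)
  have h2 : (2 : AlgebraicClosure K) ≠ 0 := by exact_mod_cast hne 2 (by omega) (by omega)
  have h3 : (3 : AlgebraicClosure K) ≠ 0 := by exact_mod_cast hne 3 (by omega) (by omega)
  have h5 : (5 : AlgebraicClosure K) ≠ 0 := by exact_mod_cast hne 5 (by omega) (by omega)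
  obtain ⟨n, -, hn⟩ := FiniteField.card K p
  have hq : Nat.card K = p ^ (n : ℕ) := by rw [Nat.card_eq_fintype_card, hn]
  let φ : AlgebraicClosure K →+* AlgebraicClosure K := iterateFrobenius (AlgebraicClosure K) p n
  have hφ : ∀ x, φ x = x ^ Nat.card K := by
    intro x
    rw [hq]
    exact iterateFrobenius_def (R := AlgebraicClosure K) p n x
  have hφK : ∀ a : K, φ (algebraMap K (AlgebraicClosure K) a) =
      algebraMap K (AlgebraicClosure K) a := by
    intro a
    rw [hφ, ← map_pow, Nat.card_eq_fintype_card, FiniteField.pow_card]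
  constructor
  · rintro ⟨r, hr1, hr2⟩
    set B := algebraMap K (AlgebraicClosure K) b with hB
    set C' := algebraMap K (AlgebraicClosure K) c with hC
    set D' := algebraMap K (AlgebraicClosure K) d with hD
    have P1 : Psi r (B + 3 * r ^ 2) B C' D' := by
      refine ⟨by ring, by linear_combination hr2, by linear_combination hr1 - r * hr2⟩
    have P2 : Psi (φ r) (φ (B + 3 * r ^ 2)) B C' D' := by
      obtain ⟨e1, e2, e3⟩ := P1
      refine ⟨?_, ?_, ?_⟩
      · have := congrArg φ e1
        rw [hB, hφK b, ← hB] at this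
        refine this.trans ?_
        simp only [map_sub, map_mul, map_pow, map_ofNat]
      · have := congrArg φ e2
        rw [hC, hφK c, ← hC] at this
        refine this.trans ?_
        simp only [map_sub, map_mul, map_pow, map_ofNat]
      · have := congrArg φ e3
        rw [hD, hφK d, ← hD] at this
        refine this.trans ?_
        simp only [map_mul, map_pow]
    rcases (hINJ (AlgebraicClosure K) h2 h3 h5).2 _ _ _ _ _ _ _ P1 P2 with ⟨h, h'⟩ | ⟨h, h', h''⟩
    · obtain ⟨u, hu⟩ := hFIX K r (by rw [← hφ]; exact h.symm)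
      obtain ⟨w, hw⟩ := hFIX K (B + 3 * r ^ 2) (by rw [← hφ]; exact h'.symm)
      rw [← hw, ← hu] at P1
      have P : Psi u w b c d := by
        obtain ⟨e1, e2, e3⟩ := P1
        refine ⟨hinj ?_, hinj ?_, hinj ?_⟩
        · rw [map_sub, map_mul, map_pow, map_ofNat, ← hB]
          exact e1
        · rw [map_sub, map_mul, map_mul, map_mul, map_pow, map_ofNat, ← hC]
          exact e2
        · rw [map_mul, map_pow, ← hD]
          exact e3
      by_cases hwu : w ≠ u ^ 2 ∨ u = 0
      · exact Or.inl ⟨u, w, hwu, P⟩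
      · push Not at hwu
        obtain ⟨e1, e2, e3⟩ := P
        refine Or.inr ⟨u ^ 2, pow_ne_zero 2 hwu.2, ?_, ?_, ?_⟩
        · rw [e1, hwu.1]; ring
        · rw [e2, hwu.1]; ring
        · rw [e3, hwu.1]; ring
    · obtain ⟨e, he⟩ := hFIX K (B + 3 * r ^ 2) (by rw [← hφ, h'', h'])
      obtain ⟨e1, e2, e3⟩ := P1
      rw [h'] at e1 e2 e3 he
      have f1 : b = -2 * e := by
        apply hinj
        rw [map_mul, map_neg, map_ofNat, he, ← hB, e1]
        ring
      have f2 : c = 0 := by
        apply hinj
        rw [map_zero, ← hC, e2]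
        ring
      have f3 : d = e ^ 2 := by
        apply hinj
        rw [map_pow, he, ← hD, e3]
        ring
      by_cases h0 : e = 0
      · refine Or.inl ⟨0, 0, Or.inr rfl, ?_, ?_, ?_⟩
        · rw [f1, h0]; ring
        · rw [f2]; ring
        · rw [f3, h0]; ring
      · exact Or.inr ⟨e, h0, f1, f2, f3⟩
  · rintro (⟨u, w, -, e1, e2, e3⟩ | ⟨e, -, e1, e2, e3⟩)
    · refine ⟨algebraMap K (AlgebraicClosure K) u, ?_, ?_⟩
      · rw [e1, e2, e3]
        simp only [map_sub, map_mul, map_pow, map_ofNat]
        ring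
      · rw [e1, e2]
        simp only [map_sub, map_mul, map_pow, map_ofNat]
        ring
    · obtain ⟨r, hr⟩ := IsAlgClosed.exists_pow_nat_eq (algebraMap K (AlgebraicClosure K) e)
        (n := 2) (by norm_num)
      refine ⟨r, ?_, ?_⟩
      · rw [e1, e2, e3]
        simp only [map_mul, map_pow, map_neg, map_ofNat, map_zero]
        rw [← hr]
        ring
      · rw [e1, e2]
        simp only [map_mul, map_neg, map_ofNat, map_zero]
        rw [← hr]
        ring

end Pool.Agent.L7h29.AB
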